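import Pool.Agent.W622.BK.Stm

/-! # The bracket of a cyclic tensor is zero -/

set_option autoImplicit false

namespace Pool.Agent.W863.BK

open Module Pool.Agent.W622.BK

universe u

variable {k : Type u} [Field k] {L : Type u} [LieRing L] [LieAlgebra k L]
variable {E : Type u} [AddCommGroup E] [Module k E] [FiniteDimensional k E]

theorem Br_comb (j : (E →ₗ[k] k) →ₗ[k] L) (c : k) (a b : E →ₗ[k] E →ₗ[k] k) :
    Br j (a + c • b) = Br j a + c • Br j b := by
  unfold Br
  rw [Finset.smul_sum, ← Finset.sum_add_distrib]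
  refine Finset.sum_congr rfl fun i _ => ?_
  rw [LinearMap.add_apply, map_add, lie_add, LinearMap.smul_apply, map_smul, lie_smul]

theorem Br3_comb (j : (E →ₗ[k] k) →ₗ[k] L) (c : k) (a b : E →ₗ[k] E →ₗ[k] E →ₗ[k] k) :
    Br3 j (a + c • b) = Br3 j a + c • Br3 j b := by
  unfold Br3
  rw [Finset.smul_sum, ← Finset.sum_add_distrib]
  refine Finset.sum_congr rfl fun i _ => ?_
  have h : (a + c • b).compr₂ (LinearMap.applyₗ (finBasis k E i) : (E →ₗ[k] k) →ₗ[k] k) =
      a.compr₂ (LinearMap.applyₗ (finBasis k E i)) +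
        c • b.compr₂ (LinearMap.applyₗ (finBasis k E i)) := by
    ext x y
    rfl
  rw [h, Br_comb, add_lie, smul_lie]

theorem t_JAC : S_JAC.{u} := by
  intro hA k _ L _ _ E _ _ _ j κ hκ hC
  obtain ⟨τ₁, τ₂, h1, h2, h3⟩ := hC
  have e1 : ∀ a e', τ₁ a a e' = 0 := fun a e' => (h2 e').1 a
  have e2 : ∀ a e, τ₂ a e e = 0 := fun a e => (h3 a).1 e
  have hα : Br3 j (κ + (-1 : k) • τ₁) = 0 := by
    refine hA k L E j (κ + (-1 : k) • τ₁) (fun a e' => ?_) (fun a e => ?_)
    · show κ a a e' + (-1 : k) * τ₁ a a e' = 0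
      rw [hκ, e1, mul_zero, add_zero]
    · show κ a e e + (-1 : k) * τ₁ a e e = 0
      have h4 : κ a e e - κ e e a = τ₁ a e e + τ₂ a e e := h1 a e e
      rw [hκ e a, e2] at h4
      rw [sub_zero, add_zero] at h4
      rw [h4]
      ring
  have hτ : Br3 j τ₁ = 0 := by
    unfold Br3
    refine Finset.sum_eq_zero fun i _ => ?_
    rw [(h2 (finBasis k E i)).2, zero_lie]
  rw [Br3_comb, hτ, smul_zero, add_zero] at hα
  exact hα

end Pool.Agent.W863.BK
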